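import Pool.Agent.H13.Loc.Main

set_option autoImplicit false
set_option linter.all false

namespace Pool.Agent.Results.MP_9b03f8_al.LocalTangent

/-- `φ` is an automorphism of the algebra `(A, m)`, `m` the bilinear product. (`A` is
finite-dimensional, so every linear map is continuous.) -/
def IsAut {𝕜 : Type*} [RCLike 𝕜] {A : Type*} [NormedAddCommGroup A] [NormedSpace 𝕜 A]
    (m : A →ₗ[𝕜] A →ₗ[𝕜] A) (φ : A →L[𝕜] A) : Prop :=
  Function.Bijective φ ∧ ∀ a b, φ (m a b) = m (φ a) (φ b)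

/-- `D` is a derivation of the algebra `(A, m)`. -/
def IsDer {𝕜 : Type*} [RCLike 𝕜] {A : Type*} [NormedAddCommGroup A] [NormedSpace 𝕜 A]
    (m : A →ₗ[𝕜] A →ₗ[𝕜] A) (D : A →L[𝕜] A) : Prop :=
  ∀ a b, D (m a b) = m (D a) b + m a (D b)

/-- `φ` is a local automorphism of `(A, m)`. -/
def IsLocAut {𝕜 : Type*} [RCLike 𝕜] {A : Type*} [NormedAddCommGroup A] [NormedSpace 𝕜 A]
    (m : A →ₗ[𝕜] A →ₗ[𝕜] A) (φ : A →L[𝕜] A) : Prop :=
  ∀ x : A, ∃ ψ : A →L[𝕜] A, IsAut m ψ ∧ φ x = ψ x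

/-- The set of all local derivations of `(A, m)`. -/
def LocDer {𝕜 : Type*} [RCLike 𝕜] {A : Type*} [NormedAddCommGroup A] [NormedSpace 𝕜 A]
    (m : A →ₗ[𝕜] A →ₗ[𝕜] A) : Set (A →L[𝕜] A) :=
  {Δ | ∀ x : A, ∃ D : A →L[𝕜] A, IsDer m D ∧ Δ x = D x}

/-- The tangent set of the set of local automorphisms: all `X ∈ End(A)` such that `exp(tX)` is a
local automorphism for every real `t`. -/
def LieLocAut {𝕜 : Type*} [RCLike 𝕜] {A : Type*} [NormedAddCommGroup A] [NormedSpace 𝕜 A]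
    (m : A →ₗ[𝕜] A →ₗ[𝕜] A) : Set (A →L[𝕜] A) :=
  {X | ∀ t : ℝ, IsLocAut m (NormedSpace.exp ((t : 𝕜) • X))}

theorem result {𝕜 : Type*} [RCLike 𝕜] {A : Type*} [NormedAddCommGroup A] [NormedSpace 𝕜 A]
    [FiniteDimensional 𝕜 A] (m : A →ₗ[𝕜] A →ₗ[𝕜] A) :
    LieLocAut m = LocDer m := by
  letI : NormedSpace ℝ A := NormedSpace.restrictScalars ℝ 𝕜 A
  haveI : IsScalarTower ℝ 𝕜 A := RestrictScalars.isScalarTower ℝ 𝕜 A
  ext X
  exact Pool.Agent.H13.Loc.main m X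

end Pool.Agent.Results.MP_9b03f8_al.LocalTangent
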